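import Mathlib

set_option autoImplicit false

namespace Pool.Agent.W57.AP4

/-- An infinite linear order with finite initial segments can be enumerated in increasing order. -/
theorem exists_enum {α β : Type*} [LinearOrder β] [Infinite α] (key : α → β)
    (inj : Function.Injective key) (fin : ∀ x, {y | key y < key x}.Finite) :
    ∃ e : ℕ ≃ α, ∀ m n, m < n → key (e m) < key (e n) := by
  classical
  let g : α → ℕ := fun x => {y | key y < key x}.ncard
  have hg : ∀ x y, key x < key y → g x < g y := by
    intro x y hxy
    apply Set.ncard_lt_ncard _ (fin y)
    refine ⟨fun z hz => lt_trans hz hxy, fun h => ?_⟩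
    exact absurd (h (show x ∈ {z | key z < key y} from hxy)) (lt_irrefl _)
  have ginj : Function.Injective g := by
    intro x y hxy
    rcases lt_trichotomy (key x) (key y) with h | h | h
    · have := hg x y h; omega
    · exact inj h
    · have := hg y x h; omega
  have glt : ∀ x y, g x < g y → key x < key y := by
    intro x y h
    rcases lt_trichotomy (key x) (key y) with h' | h' | h'
    · exact h'
    · have := inj h'; subst this; omega
    · have := hg y x h'; omega
  haveI : Infinite (Set.range g) := (Set.infinite_range_of_injective ginj).to_subtype
  let e0 : ℕ ≃o Set.range g := Nat.Subtype.orderIsoOfNat (Set.range g)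
  let e : ℕ ≃ α := e0.toEquiv.trans (Equiv.ofInjective g ginj).symm
  refine ⟨e, fun m n hmn => ?_⟩
  apply glt
  have he : ∀ k, g (e k) = (e0 k : ℕ) := by
    intro k
    have : Equiv.ofInjective g ginj (e k) = e0 k := by simp [e]
    rw [← this]; rfl
  rw [he, he]
  exact e0.lt_iff_lt.2 hmn

end Pool.Agent.W57.AP4
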