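import Mathlib

set_option autoImplicit false

namespace Pool.Agent.W57.AP4

/-- The conclusion of the construction on one residue class `w0` modulo `2 ^ u`:
`P` is the cut function, `I` the set of internal nodes, `B` an upper bound for `P`. -/
structure Good (T : ℕ → Prop) (s : ℕ → ℕ → Bool) (u w0 Q : ℕ)
    (P : ℕ → ℕ) (I : ℕ → ℕ → Prop) (B : ℕ) : Prop where
  lower : ∀ x, x % 2 ^ u = w0 → Q ≤ P x
  upper : ∀ x, x % 2 ^ u = w0 → P x ≤ B
  fin : ∃ V, ∀ v, V ≤ v → ∀ w, ¬ I v w
  int : ∀ v w, u ≤ v → w % 2 ^ u = w0 → I v w → ∀ x y, x % 2 ^ v = w → y % 2 ^ v = w →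
    x.testBit v = s v w → y.testBit v = !(s v w) → 2 * P y ≤ P x
  leaf : ∀ v w, u ≤ v → w % 2 ^ u = w0 → ¬ I v w →
    (∀ x y, x % 2 ^ v = w → y % 2 ^ v = w → P x = P y) ∧
    (∀ t, T t → t % 2 ^ v = w → P t ≤ 2 ^ v)

lemma Good.mono {T : ℕ → Prop} {s : ℕ → ℕ → Bool} {u w0 Q : ℕ}
    {P : ℕ → ℕ} {I : ℕ → ℕ → Prop} {B B' : ℕ} (g : Good T s u w0 Q P I B) (h : B ≤ B') :
    Good T s u w0 Q P I B' :=
  ⟨g.lower, fun x hx => (g.upper x hx).trans h, g.fin, g.int, g.leaf⟩

def Claim (T : ℕ → Prop) (s : ℕ → ℕ → Bool) (u w0 Q : ℕ) : Prop :=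
  ∃ P I B, Good T s u w0 Q P I B

lemma mod_pow_of_le {x u v : ℕ} (h : u ≤ v) : x % 2 ^ v % 2 ^ u = x % 2 ^ u :=
  Nat.mod_mod_of_dvd x (pow_dvd_pow 2 h)

lemma good_const {T : ℕ → Prop} {s : ℕ → ℕ → Bool} {u w0 Q : ℕ}
    (h : ∀ t, T t → t % 2 ^ u = w0 → Q ≤ 2 ^ u) :
    Good T s u w0 Q (fun _ => Q) (fun _ _ => False) Q := by
  refine ⟨fun _ _ => le_refl _, fun _ _ => le_refl _, ⟨0, by simp⟩, ?_, ?_⟩
  · intro v w _ _ h; exact h.elim
  · intro v w huv hw _
    refine ⟨fun _ _ _ _ => rfl, fun t ht htw => ?_⟩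
    have h1 : t % 2 ^ u = w0 := by rw [← hw, ← htw, mod_pow_of_le huv]
    exact (h t ht h1).trans (Nat.pow_le_pow_right (by norm_num) huv)

lemma claim_const {T : ℕ → Prop} {s : ℕ → ℕ → Bool} {u w0 Q : ℕ}
    (h : ∀ t, T t → t % 2 ^ u = w0 → Q ≤ 2 ^ u) : Claim T s u w0 Q :=
  ⟨_, _, _, good_const h⟩

lemma mod_succ_cases (x u : ℕ) :
    x % 2 ^ (u + 1) = x % 2 ^ u + (if x.testBit u then 2 ^ u else 0) := by
  rw [Nat.mod_pow_succ, Nat.testBit_eq_decide_div_mod_eq]
  rcases Nat.mod_two_eq_zero_or_one (x / 2 ^ u) with h | h <;> simp [h]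

/-- the class of `w0` with next bit `b` -/
def nxt (u w0 : ℕ) (b : Bool) : ℕ := w0 + (if b then 2 ^ u else 0)

lemma mod_succ_eq (x u w0 : ℕ) (b : Bool) (h : x % 2 ^ u = w0) (hb : x.testBit u = b) :
    x % 2 ^ (u + 1) = nxt u w0 b := by
  rw [mod_succ_cases, h, hb, nxt]

lemma testBit_of_mod {x u v w : ℕ} (h : u < v) (hx : x % 2 ^ v = w) :
    x.testBit u = w.testBit u := by
  rw [← hx, Nat.testBit_mod_two_pow]; simp [h]

lemma claim_split {T : ℕ → Prop} {s : ℕ → ℕ → Bool} {u w0 Q : ℕ} {PS : ℕ → ℕ}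
    {IS : ℕ → ℕ → Prop} {BS : ℕ}
    (gS : Good T s (u + 1) (nxt u w0 (!(s u w0))) Q PS IS BS) (hQB : Q ≤ BS)
    (hF : Claim T s (u + 1) (nxt u w0 (s u w0)) (2 * BS)) :
    Claim T s u w0 Q := by
  obtain ⟨PF, IF, BF, gF⟩ := hF
  set b := s u w0 with hb
  refine ⟨fun x => if x.testBit u = b then PF x else PS x,
    fun v w => (v = u ∧ w = w0) ∨ (u + 1 ≤ v ∧ if w.testBit u = b then IF v w else IS v w),
    max BF BS, ?_⟩
  refine ⟨?_, ?_, ?_, ?_, ?_⟩
  · intro x hx
    by_cases h : x.testBit u = b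
    · simp only [h, if_true]
      have := gF.lower x (mod_succ_eq x u w0 b hx h)
      omega
    · simp only [h, if_false]
      have h' : x.testBit u = !b := by revert h; cases x.testBit u <;> cases b <;> simp
      exact gS.lower x (mod_succ_eq x u w0 _ hx h')
  · intro x hx
    by_cases h : x.testBit u = b
    · simp only [h, if_true]
      exact (gF.upper x (mod_succ_eq x u w0 b hx h)).trans (le_max_left _ _)
    · simp only [h, if_false]
      have h' : x.testBit u = !b := by revert h; cases x.testBit u <;> cases b <;> simp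
      exact (gS.upper x (mod_succ_eq x u w0 _ hx h')).trans (le_max_right _ _)
  · obtain ⟨V1, h1⟩ := gF.fin
    obtain ⟨V2, h2⟩ := gS.fin
    refine ⟨max (u + 1) (max V1 V2), fun v hv w => ?_⟩
    have hu : u + 1 ≤ v := (le_max_left _ _).trans hv
    have hv1 : V1 ≤ v := (le_max_left _ _).trans ((le_max_right _ _).trans hv)
    have hv2 : V2 ≤ v := (le_max_right _ _).trans ((le_max_right _ _).trans hv)
    rintro (⟨h3, _⟩ | ⟨_, h4⟩)
    · omega
    · by_cases h : w.testBit u = b
      · simp only [h, if_true] at h4; exact h1 v hv1 w h4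
      · simp only [h, if_false] at h4; exact h2 v hv2 w h4
  · intro v w huv hw hI x y hx hy hxs hys
    rcases hI with ⟨rfl, rfl⟩ | ⟨hv, hI⟩
    · have e1 : x.testBit v = b := hxs
      have e2 : ¬ (y.testBit v = b) := by rw [hys, ← hb]; simp
      simp only [e1, e2, if_true, if_false]
      have e2' : y.testBit v = !b := hys
      have l1 := gF.lower x (mod_succ_eq x v w b hx e1)
      have l2 := gS.upper y (mod_succ_eq y v w _ hy e2')
      omega
    · have ex : x.testBit u = w.testBit u := testBit_of_mod hv hx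
      have ey : y.testBit u = w.testBit u := testBit_of_mod hv hy
      by_cases h : w.testBit u = b
      · simp only [h, if_true] at hI
        simp only [ex, ey, h, if_true]
        exact gF.int v w hv (mod_succ_eq w u w0 b hw h) hI x y hx hy hxs hys
      · simp only [h, if_false] at hI
        simp only [ex, ey, h, if_false]
        have h' : w.testBit u = !b := by revert h; cases w.testBit u <;> cases b <;> simp
        exact gS.int v w hv (mod_succ_eq w u w0 _ hw h') hI x y hx hy hxs hys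
  · intro v w huv hw hI
    rcases Nat.eq_or_lt_of_le huv with rfl | hv
    · by_cases hww : w = w0
      · exact absurd (Or.inl ⟨rfl, hww⟩) hI
      · -- then no x has residue w
        have hne : ∀ x : ℕ, x % 2 ^ u ≠ w := by
          intro x hx
          apply hww
          rw [← hw, ← hx, Nat.mod_mod]
        exact ⟨fun x _ hx _ => absurd hx (hne x), fun t _ ht => absurd ht (hne t)⟩
    · have hv' : u + 1 ≤ v := hv
      by_cases h : w.testBit u = b
      · have hI' : ¬ IF v w := fun hh => hI (Or.inr ⟨hv', by simpa only [h, if_true] using hh⟩)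
        obtain ⟨c1, c2⟩ := gF.leaf v w hv' (mod_succ_eq w u w0 b hw h) hI'
        refine ⟨fun x y hx hy => ?_, fun t ht htw => ?_⟩
        · have ex : x.testBit u = w.testBit u := testBit_of_mod hv hx
          have ey : y.testBit u = w.testBit u := testBit_of_mod hv hy
          simp only [ex, ey, h, if_true]
          exact c1 x y hx hy
        · have et : t.testBit u = w.testBit u := testBit_of_mod hv htw
          simp only [et, h, if_true]
          exact c2 t ht htw
      · have h' : w.testBit u = !b := by revert h; cases w.testBit u <;> cases b <;> simp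
        have hI' : ¬ IS v w := fun hh => hI (Or.inr ⟨hv', by simpa only [h, if_false] using hh⟩)
        obtain ⟨c1, c2⟩ := gS.leaf v w hv' (mod_succ_eq w u w0 _ hw h') hI'
        refine ⟨fun x y hx hy => ?_, fun t ht htw => ?_⟩
        · have ex : x.testBit u = w.testBit u := testBit_of_mod hv hx
          have ey : y.testBit u = w.testBit u := testBit_of_mod hv hy
          simp only [ex, ey, h, if_false]
          exact c1 x y hx hy
        · have et : t.testBit u = w.testBit u := testBit_of_mod hv htw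
          simp only [et, h, if_false]
          exact c2 t ht htw

/-- deep classes: at most one element of `T`, and the orientation alternates along the path -/
lemma claim_deep {T : ℕ → Prop} {s : ℕ → ℕ → Bool} {M U : ℕ} (hT : ∀ t, T t → t < M)
    (hs : ∀ u, U ≤ u → ∀ w, s (u + 1) w = !(s u w)) (n : ℕ) :
    ∀ u, U ≤ u → M ≤ 2 ^ u → ∀ w0, w0 < 2 ^ u → ∀ Q, Q ≤ 2 ^ (u + n) → Claim T s u w0 Q := by
  have hgen' : ∀ u, M ≤ 2 ^ u → ∀ w0, w0 < 2 ^ u → ∀ Q,
      Good T s (u + 1) (nxt u w0 true) Q (fun _ => Q) (fun _ _ => False) Q := by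
    intro u hM w0 hw Q
    apply good_const
    intro t ht htw
    exfalso
    have h1 := hT t ht
    have h2 : t % 2 ^ (u + 1) = t := Nat.mod_eq_of_lt (by rw [pow_succ]; omega)
    rw [h2, nxt] at htw
    simp at htw
    omega
  have hgen : ∀ u, M ≤ 2 ^ u → ∀ w0, w0 < 2 ^ u → ∀ Q, Claim T s (u + 1) (nxt u w0 true) Q :=
    fun u hM w0 hw Q => ⟨_, _, _, hgen' u hM w0 hw Q⟩
  induction n with
  | zero =>
    intro u _ _ w0 _ Q hQ
    exact claim_const (fun _ _ _ => by simpa using hQ)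
  | succ n ih =>
    -- one step when the generic child comes first
    have one : ∀ n, (∀ u, U ≤ u → M ≤ 2 ^ u → ∀ w0, w0 < 2 ^ u → ∀ Q, Q ≤ 2 ^ (u + n) →
        Claim T s u w0 Q) → ∀ u, U ≤ u → M ≤ 2 ^ u → ∀ w0, w0 < 2 ^ u → s u w0 = true →
        ∀ Q, Q ≤ 2 ^ (u + (n + 1)) → Claim T s u w0 Q := by
      intro n ih u hU hM w0 hw hsu Q hQ
      have hc : Claim T s (u + 1) w0 Q :=
        ih (u + 1) (by omega) (hM.trans (Nat.pow_le_pow_right (by norm_num) (by omega))) w0
          (hw.trans_le (Nat.pow_le_pow_right (by norm_num) (by omega))) Q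
          (by rwa [show u + 1 + n = u + (n + 1) by ring])
      obtain ⟨PS, IS, BS, gS⟩ := hc
      refine claim_split (PS := PS) (IS := IS) (BS := max BS Q) ?_ (le_max_right _ _) ?_
      · rw [hsu]
        have : nxt u w0 (!true) = w0 := by simp [nxt]
        rw [this]
        exact gS.mono (le_max_left _ _)
      · rw [hsu]
        obtain ⟨P, I, B, g⟩ := hgen u hM w0 hw (2 * max BS Q)
        exact ⟨_, _, _, g⟩
    intro u hU hM w0 hw Q hQ
    rcases hsu : s u w0 with _ | _
    · -- special child first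
      obtain ⟨P, I, B, g⟩ := hgen u hM w0 hw Q
      refine claim_split (PS := fun _ => Q) (IS := fun _ _ => False) (BS := Q) ?_ le_rfl ?_
      · rw [hsu]
        exact hgen' u hM w0 hw Q
      · rw [hsu]
        have hn : nxt u w0 false = w0 := by simp [nxt]
        rw [hn]
        have hM' : M ≤ 2 ^ (u + 1) := hM.trans (Nat.pow_le_pow_right (by norm_num) (by omega))
        have hw' : w0 < 2 ^ (u + 1) := hw.trans_le (Nat.pow_le_pow_right (by norm_num) (by omega))
        have hs' : s (u + 1) w0 = true := by rw [hs u hU w0, hsu]; rfl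
        refine one n ih (u + 1) (by omega) hM' w0 hw' hs' (2 * Q) ?_
        have : (2:ℕ) ^ (u + 1 + (n + 1)) = 2 * 2 ^ (u + (n + 1)) := by ring
        rw [this]; omega
    · exact one n ih u hU hM w0 hw hsu Q hQ

lemma nxt_lt {u w0 : ℕ} (h : w0 < 2 ^ u) (b : Bool) : nxt u w0 b < 2 ^ (u + 1) := by
  have : (2:ℕ) ^ (u + 1) = 2 * 2 ^ u := by ring
  rcases b with _ | _ <;> simp [nxt] <;> omega

theorem claim_all {T : ℕ → Prop} {s : ℕ → ℕ → Bool} {M : ℕ} (hT : ∀ t, T t → t < M)
    (hs : ∃ U, ∀ u, U ≤ u → ∀ w, s (u + 1) w = !(s u w)) (Q : ℕ) : Claim T s 0 0 Q := by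
  obtain ⟨U, hs⟩ := hs
  set U' := max U M with hU'
  have hM : M ≤ 2 ^ U' := by
    have h1 : M < 2 ^ M := Nat.lt_two_pow_self
    exact h1.le.trans (Nat.pow_le_pow_right (by norm_num) (le_max_right _ _))
  have deep : ∀ w0, w0 < 2 ^ U' → ∀ Q, Claim T s U' w0 Q := by
    intro w0 hw Q
    refine claim_deep hT hs Q U' (le_max_left _ _) hM w0 hw Q ?_
    have h1 : Q < 2 ^ Q := Nat.lt_two_pow_self
    exact h1.le.trans (Nat.pow_le_pow_right (by norm_num) (by omega))
  have down : ∀ k u, u + k = U' → ∀ w0, w0 < 2 ^ u → ∀ Q, Claim T s u w0 Q := by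
    intro k
    induction k with
    | zero => intro u hu w0 hw Q; obtain rfl : u = U' := by omega
              exact deep w0 hw Q
    | succ k ih =>
      intro u hu w0 hw Q
      obtain ⟨PS, IS, BS, gS⟩ := ih (u + 1) (by omega) _ (nxt_lt hw (!(s u w0))) Q
      exact claim_split (gS.mono (le_max_left BS Q)) (le_max_right _ _)
        (ih (u + 1) (by omega) _ (nxt_lt hw _) _)
  exact down U' 0 (by omega) 0 (by norm_num) Q

structure State where
  s : ℕ → ℕ → Bool
  P : ℕ → ℕ
  M : ℕ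

def Inv (a : State) : Prop :=
  (∃ U, ∀ u, U ≤ u → ∀ w, a.s (u + 1) w = !(a.s u w)) ∧ (∀ x, a.P x ≤ a.M) ∧ 1 ≤ a.M

def Step (a b : State) : Prop := ∃ I : ℕ → ℕ → Prop,
  (∀ x, 3 * a.M ≤ b.P x) ∧
  (∀ v w, I v w → b.s v w = a.s v w ∧ ∀ x y, x % 2 ^ v = w → y % 2 ^ v = w →
    x.testBit v = a.s v w → y.testBit v = !(a.s v w) → 2 * b.P y ≤ b.P x) ∧
  (∀ v w, ¬ I v w → b.s v w = !(a.s v w) ∧
    (∀ x y, x % 2 ^ v = w → y % 2 ^ v = w → b.P x = b.P y) ∧
    (∀ t, t < a.P t → t % 2 ^ v = w → b.P t ≤ 2 ^ v))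

open Classical in
lemma exists_step (a : State) (h : Inv a) : ∃ b, Inv b ∧ Step a b := by
  obtain ⟨h1, h2, h3⟩ := h
  obtain ⟨P, I, B, g⟩ := claim_all (T := fun t => t < a.P t) (s := a.s) (M := a.M)
    (fun t ht => ht.trans_le (h2 t)) h1 (3 * a.M)
  refine ⟨⟨fun v w => if I v w then a.s v w else !(a.s v w), P, max B 1⟩, ⟨?_, ?_, ?_⟩,
    I, ?_, ?_, ?_⟩
  · obtain ⟨U, hU⟩ := h1
    obtain ⟨V, hV⟩ := g.fin
    refine ⟨max U V, fun u hu w => ?_⟩
    have e1 := hV u ((le_max_right _ _).trans hu) w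
    have e2 := hV (u + 1) (((le_max_right _ _).trans hu).trans (by omega)) w
    simp only [e1, e2, if_false]
    rw [hU u ((le_max_left _ _).trans hu) w]
  · intro x
    exact (g.upper x (by simp [Nat.mod_one])).trans (le_max_left _ _)
  · exact le_max_right _ _
  · intro x
    exact g.lower x (by simp [Nat.mod_one])
  · intro v w hI
    refine ⟨by simp only [hI, if_true], ?_⟩
    exact g.int v w (Nat.zero_le _) (by simp [Nat.mod_one]) hI
  · intro v w hI
    refine ⟨by simp only [hI, if_false], ?_⟩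
    exact g.leaf v w (Nat.zero_le _) (by simp [Nat.mod_one]) hI

theorem exists_seq : ∃ st : ℕ → State, (st 0).P = (fun _ => 0) ∧ (st 0).M = 1 ∧
    (∀ n, Inv (st n)) ∧ ∀ n, Step (st n) (st (n + 1)) := by
  let a0 : State := ⟨fun u _ => decide (u % 2 = 1), fun _ => 0, 1⟩
  have h0 : Inv a0 := by
    refine ⟨⟨0, fun u _ w => ?_⟩, fun x => by simp [a0], le_rfl⟩
    simp only [a0]
    rcases Nat.mod_two_eq_zero_or_one u with h | h
    · have : (u + 1) % 2 = 1 := by omega
      simp [h, this]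
    · have : (u + 1) % 2 = 0 := by omega
      simp [h, this]
  choose! f hf1 hf2 using exists_step
  let st : ℕ → State := fun n => Nat.rec a0 (fun _ a => f a) n
  have hst : ∀ n, st (n + 1) = f (st n) := fun n => rfl
  have hinv : ∀ n, Inv (st n) := by
    intro n
    induction n with
    | zero => exact h0
    | succ n ih => rw [hst]; exact hf1 _ ih
  exact ⟨st, rfl, rfl, hinv, fun n => by rw [hst]; exact hf2 _ (hinv n)⟩

end Pool.Agent.W57.AP4
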