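import Mathlib
import Pool.Agent.W57.AP4.Build

set_option autoImplicit false

namespace Pool.Agent.W57.AP4

/-- The data of the construction: `s n` is the orientation in region `n`, `P n` the cut function
of the transition from region `n` to region `n + 1`. -/
structure Data where
  s : ℕ → ℕ → ℕ → Bool
  P : ℕ → ℕ → ℕ
  M : ℕ → ℕ
  I : ℕ → ℕ → ℕ → Prop
  le_M : ∀ n x, P n x ≤ M n
  three : ∀ x, 3 ≤ P 0 x
  grow : ∀ n x, 3 * M n ≤ P (n + 1) x
  int1 : ∀ n v w, I n v w → s (n + 1) v w = s n v w
  int2 : ∀ n v w, I n v w → ∀ x y, x % 2 ^ v = w → y % 2 ^ v = w →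
    x.testBit v = s n v w → y.testBit v = !(s n v w) → 2 * P n y ≤ P n x
  leaf1 : ∀ n v w, ¬ I n v w → s (n + 1) v w = !(s n v w)
  leaf2 : ∀ n v w, ¬ I n v w → ∀ x y, x % 2 ^ v = w → y % 2 ^ v = w → P n x = P n y
  leaf3 : ∀ n v w, ¬ I (n + 1) v w → ∀ t, t < P n t → t % 2 ^ v = w → P (n + 1) t ≤ 2 ^ v

theorem exists_data : Nonempty Data := by
  obtain ⟨st, h1, h2, h3, h4⟩ := exists_seq
  choose I hI1 hI2 hI3 using h4
  exact ⟨{
    s := fun n => (st n).s
    P := fun n => (st (n + 1)).P
    M := fun n => (st (n + 1)).M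
    I := I
    le_M := fun n x => (h3 (n + 1)).2.1 x
    three := fun x => by have := hI1 0 x; rw [h2] at this; simpa using this
    grow := fun n x => hI1 (n + 1) x
    int1 := fun n v w h => (hI2 n v w h).1
    int2 := fun n v w h => (hI2 n v w h).2
    leaf1 := fun n v w h => (hI3 n v w h).1
    leaf2 := fun n v w h => (hI3 n v w h).2.1
    leaf3 := fun n v w h => (hI3 (n + 1) v w h).2.2 }⟩

namespace Data

variable (D : Data)

lemma M_mono_succ (n : ℕ) : 3 * D.M n ≤ D.M (n + 1) := (D.grow n 0).trans (D.le_M _ _)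

lemma lt_P (n : ℕ) : ∀ x, n + 1 < D.P n x := by
  induction n with
  | zero => intro x; have := D.three x; omega
  | succ n ih => intro x; have h1 := D.grow n x; have h2 := ih x; have h3 := D.le_M n x; omega

lemma P_lt_succ (n x : ℕ) : D.P n x < D.P (n + 1) x := by
  have h1 := D.grow n x; have h2 := D.le_M n x; have h3 := D.lt_P n x; omega

lemma P_mono (x : ℕ) : StrictMono (fun n => D.P n x) := strictMono_nat_of_lt_succ (fun n => D.P_lt_succ n x)

lemma exists_lt (x : ℕ) : ∃ j, x < D.P j x := ⟨x, by have := D.lt_P x x; omega⟩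

/-- the region of `x` -/
noncomputable def K (x : ℕ) : ℕ := by classical exact Nat.find (D.exists_lt x)

lemma K_spec (x : ℕ) : x < D.P (D.K x) x := by
  classical
  unfold K
  convert Nat.find_spec (D.exists_lt x)

lemma K_le_iff (x j : ℕ) : D.K x ≤ j ↔ x < D.P j x := by
  classical
  constructor
  · intro h
    exact (D.K_spec x).trans_le ((D.P_mono x).monotone h)
  · intro h
    unfold K
    convert Nat.find_min' (D.exists_lt x) h

lemma K_eq_succ {x j : ℕ} (h1 : D.P j x ≤ x) (h2 : x < D.P (j + 1) x) : D.K x = j + 1 := by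
  have a := (D.K_le_iff x (j + 1)).2 h2
  have b : ¬ D.K x ≤ j := fun h => absurd ((D.K_le_iff x j).1 h) (by omega)
  omega

/-- the code of `x` in region `k` -/
def code (k x : ℕ) : ℕ → Bool := fun v => xor (x.testBit v) (D.s k v (x % 2 ^ v))

noncomputable def key (x : ℕ) : ℕ ×ₗ Lex (ℕ → Bool) := toLex (D.K x, toLex (D.code (D.K x) x))

lemma key_lt_of_K {x y : ℕ} (h : D.K x < D.K y) : D.key x < D.key y := by
  rw [key, key, Prod.Lex.toLex_lt_toLex]
  exact Or.inl h

lemma K_le_of_key {x y : ℕ} (h : D.key x < D.key y) : D.K x ≤ D.K y := by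
  by_contra hc
  exact absurd (D.key_lt_of_K (not_le.1 hc)) (not_lt.2 h.le)

lemma mod_eq_of_le {x y j v : ℕ} (h : j ≤ v) (hxy : x % 2 ^ v = y % 2 ^ v) :
    x % 2 ^ j = y % 2 ^ j := by
  rw [← mod_pow_of_le (x := x) h, hxy, mod_pow_of_le h]

lemma key_lt_of_first {x y v : ℕ} (hK : D.K x = D.K y) (hm : x % 2 ^ v = y % 2 ^ v)
    (hx : x.testBit v = D.s (D.K x) v (x % 2 ^ v))
    (hy : y.testBit v = !(D.s (D.K x) v (x % 2 ^ v))) : D.key x < D.key y := by
  rw [key, key, Prod.Lex.toLex_lt_toLex]
  refine Or.inr ⟨hK, ?_⟩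
  refine ⟨v, fun j hj => ?_, ?_⟩
  · show D.code (D.K x) x j = D.code (D.K y) y j
    unfold code
    have e1 : x.testBit j = y.testBit j := by
      rw [testBit_of_mod hj rfl, hm, ← testBit_of_mod hj rfl]
    rw [e1, hK, mod_eq_of_le hj.le hm]
  · show D.code (D.K x) x v < D.code (D.K y) y v
    unfold code
    rw [← hK, ← hm, hx, hy]
    simp

/-! ### Arithmetic of four-term progressions -/

lemma exists_pow_mul_odd {d : ℕ} (hd : 0 < d) : ∃ v m, d = 2 ^ v * (2 * m + 1) := by
  obtain ⟨v, m, hm, h⟩ := Nat.exists_eq_two_pow_mul_odd hd.ne'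
  obtain ⟨k, rfl⟩ := hm
  exact ⟨v, k, h⟩

lemma add_mod_pow {x v m : ℕ} : (x + 2 ^ v * m) % 2 ^ v = x % 2 ^ v := by simp

lemma testBit_add_odd {x v m : ℕ} : (x + 2 ^ v * (2 * m + 1)).testBit v = !(x.testBit v) := by
  rw [Nat.testBit_eq_decide_div_mod_eq, Nat.testBit_eq_decide_div_mod_eq,
    Nat.add_mul_div_left _ _ (by positivity)]
  rcases Nat.mod_two_eq_zero_or_one (x / 2 ^ v) with h | h
  · have : (x / 2 ^ v + (2 * m + 1)) % 2 = 1 := by omega
    simp [h, this]
  · have : (x / 2 ^ v + (2 * m + 1)) % 2 = 0 := by omega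
    simp [h, this]

/-- Two different numbers have different keys. -/
lemma key_total {x y : ℕ} (h : x ≠ y) : D.key x < D.key y ∨ D.key y < D.key x := by
  wlog hxy : x < y generalizing x y
  · exact (this h.symm (by omega)).symm
  obtain ⟨v, m, hd⟩ := exists_pow_mul_odd (d := y - x) (by omega)
  have hy : y = x + 2 ^ v * (2 * m + 1) := by omega
  have hmod : x % 2 ^ v = y % 2 ^ v := by rw [hy, add_mod_pow]
  have hbit : y.testBit v = !(x.testBit v) := by rw [hy, testBit_add_odd]
  rcases lt_trichotomy (D.K x) (D.K y) with hK | hK | hK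
  · exact Or.inl (D.key_lt_of_K hK)
  · by_cases hb : x.testBit v = D.s (D.K x) v (x % 2 ^ v)
    · left
      exact D.key_lt_of_first hK hmod hb (by rw [hbit, hb])
    · right
      have hb' : x.testBit v = !(D.s (D.K x) v (x % 2 ^ v)) := by
        revert hb; cases x.testBit v <;> cases D.s (D.K x) v (x % 2 ^ v) <;> simp
      refine D.key_lt_of_first hK.symm hmod.symm ?_ ?_
      · rw [hbit, hb', ← hK, ← hmod]; simp
      · rw [hb', ← hK, ← hmod]
  · exact Or.inr (D.key_lt_of_K hK)

/-- Three numbers of one region whose bits at the level `v` alternate are not monotone. -/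
lemma no_three {x y z v : ℕ} (h1 : D.K x = D.K y) (h2 : D.K y = D.K z)
    (m1 : x % 2 ^ v = y % 2 ^ v) (m2 : y % 2 ^ v = z % 2 ^ v)
    (b1 : y.testBit v = !(x.testBit v)) (b2 : z.testBit v = !(y.testBit v)) :
    ¬ (D.key x < D.key y ∧ D.key y < D.key z) ∧ ¬ (D.key z < D.key y ∧ D.key y < D.key x) := by
  by_cases hb : y.testBit v = D.s (D.K y) v (y % 2 ^ v)
  · have l1 : D.key y < D.key x := by
      refine D.key_lt_of_first h1.symm m1.symm hb ?_
      rw [← hb, b1]; simp
    have l2 : D.key y < D.key z := by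
      refine D.key_lt_of_first h2 m2 hb ?_
      rw [← hb, b2]
    exact ⟨fun h => absurd h.1 (not_lt.2 l1.le), fun h => absurd h.1 (not_lt.2 l2.le)⟩
  · have hb' : y.testBit v = !(D.s (D.K y) v (y % 2 ^ v)) := by
      revert hb; cases y.testBit v <;> cases D.s (D.K y) v (y % 2 ^ v) <;> simp
    have hx : x.testBit v = D.s (D.K x) v (x % 2 ^ v) := by
      rw [h1, m1]
      revert hb' b1; cases x.testBit v <;> cases y.testBit v <;>
        cases D.s (D.K y) v (y % 2 ^ v) <;> simp
    have hz : z.testBit v = D.s (D.K z) v (z % 2 ^ v) := by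
      rw [← h2, ← m2]
      revert hb' b2; cases z.testBit v <;> cases y.testBit v <;>
        cases D.s (D.K y) v (y % 2 ^ v) <;> simp
    have l1 : D.key x < D.key y := by
      refine D.key_lt_of_first h1 m1 hx ?_
      rw [h1, m1]; exact hb'
    have l2 : D.key z < D.key y := by
      refine D.key_lt_of_first h2.symm m2.symm hz ?_
      rw [← h2, ← m2]; exact hb'
    exact ⟨fun h => absurd h.2 (not_lt.2 l2.le), fun h => absurd h.2 (not_lt.2 l1.le)⟩

/-- Going from a number `y` of the second class to a number `z` of the first class forward in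
time, near the transition `j`, more than doubles. -/
lemma crossing {j v y z : ℕ} (hI : D.I j v (y % 2 ^ v)) (hm : y % 2 ^ v = z % 2 ^ v)
    (hy : y.testBit v = !(D.s j v (y % 2 ^ v))) (hz : z.testBit v = D.s j v (y % 2 ^ v))
    (wy : (y < D.P j y ∧ D.K y = j) ∨ (D.P j y ≤ y ∧ D.K y = j + 1))
    (wz : (z < D.P j z ∧ D.K z = j) ∨ (D.P j z ≤ z ∧ D.K z = j + 1))
    (hlt : D.key y < D.key z) : 2 * y < z := by
  have h2 := D.int2 j v _ hI z y hm.symm rfl hz hy
  have h1 := D.int1 j v _ hI
  have hKK := D.K_le_of_key hlt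
  have same : D.K y = D.K z → False := by
    intro hK
    have : D.key z < D.key y := by
      refine D.key_lt_of_first hK.symm hm.symm ?_ ?_
      · rw [← hm]
        rcases wz with ⟨_, e⟩ | ⟨_, e⟩
        · rw [e]; exact hz
        · rw [e, h1]; exact hz
      · rw [← hm]
        rcases wz with ⟨_, e⟩ | ⟨_, e⟩
        · rw [e]; exact hy
        · rw [e, h1]; exact hy
    exact absurd hlt (not_lt.2 this.le)
  rcases wy with ⟨a, e⟩ | ⟨a, e⟩
  · rcases wz with ⟨a', e'⟩ | ⟨a', e'⟩
    · exact (same (by rw [e, e'])).elim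
    · omega
  · rcases wz with ⟨a', e'⟩ | ⟨a', e'⟩
    · omega
    · exact (same (by rw [e, e'])).elim

/-- **No four-term progression is monotone.** -/
theorem no_four (x d : ℕ) (hx : 0 < x) (hd : 0 < d) :
    ¬ (D.key x < D.key (x + d) ∧ D.key (x + d) < D.key (x + 2 * d) ∧
        D.key (x + 2 * d) < D.key (x + 3 * d)) ∧
    ¬ (D.key (x + 3 * d) < D.key (x + 2 * d) ∧ D.key (x + 2 * d) < D.key (x + d) ∧
        D.key (x + d) < D.key x) := by
  classical
  obtain ⟨v, m, hdv⟩ := exists_pow_mul_odd hd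
  -- residues and bits
  have m1 : x % 2 ^ v = (x + d) % 2 ^ v := by rw [hdv, add_mod_pow]
  have m2 : (x + d) % 2 ^ v = (x + 2 * d) % 2 ^ v := by
    rw [show x + 2 * d = (x + d) + d by ring]; conv_rhs => rw [hdv]
    conv_lhs => rw [hdv]
    simp
  have m3 : (x + 2 * d) % 2 ^ v = (x + 3 * d) % 2 ^ v := by
    rw [show x + 3 * d = (x + 2 * d) + d by ring]
    have : ((x + 2 * d) + d) % 2 ^ v = (x + 2 * d) % 2 ^ v := by
      conv_lhs => rw [show (x + 2 * d) + d = (x + 2 * d) + 2 ^ v * (2 * m + 1) by rw [← hdv]]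
      rw [add_mod_pow]
    rw [this]
  have t1 : (x + d).testBit v = !(x.testBit v) := by
    conv_lhs => rw [hdv]
    rw [testBit_add_odd]
  have t2 : (x + 2 * d).testBit v = !((x + d).testBit v) := by
    have : x + 2 * d = (x + d) + 2 ^ v * (2 * m + 1) := by rw [← hdv]; ring
    rw [this, testBit_add_odd]
  have t3 : (x + 3 * d).testBit v = !((x + 2 * d).testBit v) := by
    have : x + 3 * d = (x + 2 * d) + 2 ^ v * (2 * m + 1) := by rw [← hdv]; ring
    rw [this, testBit_add_odd]
  -- the window
  have hex : ∃ j, x + d < D.M j := ⟨x + d, by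
    have := D.lt_P (x + d) 0; have := D.le_M (x + d) 0; omega⟩
  set j := Nat.find hex with hj
  have hj1 : x + d < D.M j := Nat.find_spec hex
  have hj2 : ∀ i, i < j → D.M i ≤ x + d := fun i hi => not_lt.1 (Nat.find_min hex hi)
  have window : ∀ y, x + d ≤ y → y ≤ x + 3 * d →
      (y < D.P j y ∧ D.K y = j) ∨ (D.P j y ≤ y ∧ D.K y = j + 1) := by
    intro y hy1 hy2
    have hup : y < D.P (j + 1) y := by
      have := D.grow j y
      omega
    rcases lt_or_ge y (D.P j y) with h | h
    · left
      refine ⟨h, ?_⟩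
      have a : D.K y ≤ j := (D.K_le_iff y j).2 h
      rcases Nat.eq_zero_or_pos j with h0 | h0
      · omega
      · have b : ¬ D.K y ≤ j - 1 := by
          intro hc
          have c := (D.K_le_iff y (j - 1)).1 hc
          have e := D.le_M (j - 1) y
          have f := hj2 (j - 1) (by omega)
          omega
        omega
    · exact Or.inr ⟨h, D.K_eq_succ h hup⟩
  have w2 := window (x + d) le_rfl (by omega)
  have w3 := window (x + 2 * d) (by omega) (by omega)
  have w4 := window (x + 3 * d) (by omega) le_rfl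
  by_cases hI : D.I j v (x % 2 ^ v)
  · -- internal node
    by_cases hb : x.testBit v = D.s j v (x % 2 ^ v)
    · -- first, second, first, second
      constructor
      · rintro ⟨-, h, -⟩
        have := D.crossing (y := x + d) (z := x + 2 * d) (by rwa [← m1]) m2
          (by rw [t1, ← m1, hb]) (by rw [t2, t1, ← m1, hb]; simp) w2 w3 h
        omega
      · rintro ⟨h, -, -⟩
        have := D.crossing (y := x + 3 * d) (z := x + 2 * d) (by rwa [← m3, ← m2, ← m1]) m3.symm
          (by rw [t3, t2, t1, ← m3, ← m2, ← m1, hb]; simp)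
          (by rw [t2, t1, ← m3, ← m2, ← m1, hb]; simp) w4 w3 h
        omega
    · have hb' : x.testBit v = !(D.s j v (x % 2 ^ v)) := by
        revert hb; cases x.testBit v <;> cases D.s j v (x % 2 ^ v) <;> simp
      constructor
      · rintro ⟨-, -, h⟩
        have := D.crossing (y := x + 2 * d) (z := x + 3 * d) (by rwa [← m2, ← m1]) m3
          (by rw [t2, t1, ← m2, ← m1, hb']; simp)
          (by rw [t3, t2, t1, ← m2, ← m1, hb']; simp) w3 w4 h
        omega
      · rintro ⟨-, h, -⟩
        have := D.crossing (y := x + 2 * d) (z := x + d) (by rwa [← m2, ← m1]) m2.symm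
          (by rw [t2, t1, ← m2, ← m1, hb']; simp)
          (by rw [t1, ← m2, ← m1, hb']; simp) w3 w2 h
        omega
  · -- leaf
    have p2 : D.P j (x + d) = D.P j x := (D.leaf2 j v _ hI x (x + d) rfl m1.symm).symm
    have p3 : D.P j (x + 2 * d) = D.P j x :=
      (D.leaf2 j v _ hI x (x + 2 * d) rfl (m1.trans m2).symm).symm
    have p4 : D.P j (x + 3 * d) = D.P j x :=
      (D.leaf2 j v _ hI x (x + 3 * d) rfl ((m1.trans m2).trans m3).symm).symm
    rw [p2] at w2
    rw [p3] at w3
    rw [p4] at w4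
    rcases le_or_gt (D.P j x) (x + d) with hp | hp
    · -- all of x2, x3, x4 in region j + 1
      have k2 : D.K (x + d) = j + 1 := by omega
      have k3 : D.K (x + 2 * d) = j + 1 := by omega
      have k4 : D.K (x + 3 * d) = j + 1 := by omega
      have := D.no_three (k2.trans k3.symm) (k3.trans k4.symm) m2 m3 t2 t3
      exact ⟨fun h => this.1 ⟨h.2.1, h.2.2⟩, fun h => this.2 ⟨h.1, h.2.1⟩⟩
    · have k2 : D.K (x + d) = j := by omega
      have k1 : D.K x = j := by
        have a : D.K x ≤ j := (D.K_le_iff x j).2 (by omega)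
        rcases Nat.eq_zero_or_pos j with h0 | h0
        · omega
        · by_contra hne
          obtain ⟨i, hi⟩ : ∃ i, j = i + 1 := ⟨j - 1, by omega⟩
          have b : D.K x ≤ i := by omega
          have c := (D.K_le_iff x i).1 b
          rw [hi] at hI hp
          have e := D.leaf3 i v _ hI x c rfl
          have f : 2 ^ v ≤ d := by
            rw [hdv]; exact Nat.le_mul_of_pos_right _ (by omega)
          omega
      rcases le_or_gt (D.P j x) (x + 2 * d) with hq | hq
      · have k3 : D.K (x + 2 * d) = j + 1 := by omega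
        have k4 : D.K (x + 3 * d) = j + 1 := by omega
        constructor
        · rintro ⟨ha, -, hc⟩
          by_cases hb : x.testBit v = D.s j v (x % 2 ^ v)
          · -- then x4 < x3
            have hs := D.leaf1 j v _ hI
            have : D.key (x + 3 * d) < D.key (x + 2 * d) := by
              refine D.key_lt_of_first (k4.trans k3.symm) m3.symm ?_ ?_
              · rw [t3, t2, t1, k4, ← m3, ← m2, ← m1, hs, hb]; simp
              · rw [t2, t1, k4, ← m3, ← m2, ← m1, hs, hb]
            exact absurd hc (not_lt.2 this.le)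
          · have hb' : x.testBit v = !(D.s j v (x % 2 ^ v)) := by
              revert hb; cases x.testBit v <;> cases D.s j v (x % 2 ^ v) <;> simp
            have : D.key (x + d) < D.key x := by
              refine D.key_lt_of_first (k2.trans k1.symm) m1.symm ?_ ?_
              · rw [t1, k2, ← m1, hb']; simp
              · rw [k2, ← m1, hb']
            exact absurd ha (not_lt.2 this.le)
        · rintro ⟨-, hb, -⟩
          have := D.K_le_of_key hb
          omega
      · have k3 : D.K (x + 2 * d) = j := by omega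
        have := D.no_three (k1.trans k2.symm) (k2.trans k3.symm) m1 m2 t1 t2
        exact ⟨fun h => this.1 ⟨h.1, h.2.1⟩, fun h => this.2 ⟨h.2.1, h.2.2⟩⟩

end Data

end Pool.Agent.W57.AP4
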